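import Pool.Agent.Q289.LV.Stm

/-! Project LV (helper289), job AR (helper182): arithmetic of the rotation number. -/

set_option autoImplicit false

open Filter Topology

namespace Q182.LV

open Q289.LV

lemma al_eq (n : ℕ) : LiouvilleNumber.partialSum 3 n + LiouvilleNumber.remainder 3 n = al :=
  LiouvilleNumber.partialSum_add_remainder (by norm_num) n

lemma rem_pos (n : ℕ) : 0 < LiouvilleNumber.remainder 3 n :=
  LiouvilleNumber.remainder_pos (by norm_num) n

lemma rem_lt (n : ℕ) : LiouvilleNumber.remainder 3 n < 3 / 2 * (1 / 3 ^ (n + 1).factorial) := by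
  have := LiouvilleNumber.remainder_lt' n (m := 3) (by norm_num)
  norm_num at this ⊢
  exact this

lemma rem_ge (n : ℕ) : 1 / 3 ^ (n + 1).factorial ≤ LiouvilleNumber.remainder 3 n := by
  unfold LiouvilleNumber.remainder
  have h := (LiouvilleNumber.remainder_summable (m := 3) (by norm_num) n).le_tsum 0
    (fun j _ => by positivity)
  simpa using h

/-- the numerator of the partial sum -/
def PP (n : ℕ) : ℕ := ∑ i ∈ Finset.range (n + 1), 3 ^ (n.factorial - i.factorial)

lemma PP_eq (n : ℕ) : (qn n : ℝ) * LiouvilleNumber.partialSum 3 n = PP n := by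
  unfold PP qn LiouvilleNumber.partialSum
  rw [Finset.mul_sum]
  push_cast
  refine Finset.sum_congr rfl fun i hi => ?_
  have h1 : i.factorial ≤ n.factorial := Nat.factorial_le (by
    have := Finset.mem_range.1 hi
    omega)
  have h2 : (3 : ℝ) ^ n.factorial = 3 ^ (n.factorial - i.factorial) * 3 ^ i.factorial := by
    rw [← pow_add]
    congr 1
    omega
  rw [h2]
  field_simp

lemma PP_coprime (n : ℕ) (hn : 1 ≤ n) : (PP n).Coprime (qn n) := by
  unfold qn
  apply Nat.Coprime.pow_right
  rw [Nat.coprime_comm, Nat.Prime.coprime_iff_not_dvd Nat.prime_three]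
  rcases Nat.lt_or_ge n 2 with h | h
  · have : n = 1 := by omega
    rw [this]
    unfold PP
    simp [Finset.sum_range_succ]
  · unfold PP
    rw [Finset.sum_range_succ]
    have h1 : 3 ∣ ∑ i ∈ Finset.range n, 3 ^ (n.factorial - i.factorial) := by
      refine Finset.dvd_sum fun i hi => ?_
      have hi' := Finset.mem_range.1 hi
      have h2 : i.factorial < n.factorial := by
        calc i.factorial ≤ (n - 1).factorial := Nat.factorial_le (by omega)
          _ < n.factorial := by
            apply Nat.factorial_lt (by omega) |>.2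
            omega
      exact dvd_pow_self 3 (by omega)
    intro h2
    rw [Nat.dvd_add_right h1] at h2
    simp at h2

theorem ar : S_Ar where
  rng := by
    have h1 := al_eq 2
    have h2 := rem_pos 2
    have h3 := rem_lt 2
    have h4 : LiouvilleNumber.partialSum 3 2 = 7 / 9 := by
      unfold LiouvilleNumber.partialSum
      simp [Finset.sum_range_succ, Nat.factorial]
      norm_num
    rw [h4] at h1
    simp only [Nat.factorial] at h3
    norm_num at h3
    constructor <;> linarith
  irr := (liouville_liouvilleNumber (by norm_num)).irrational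
  notDio := by
    rintro ⟨γ, τ, hγ, hτ, h⟩
    obtain ⟨m, hm⟩ := pow_unbounded_of_one_lt (1 / γ) (show (1 : ℝ) < 2 by norm_num)
    obtain ⟨k, hk⟩ := exists_nat_ge τ
    have hL : Liouville al := liouville_liouvilleNumber (by norm_num)
    obtain ⟨a, b, hb, -, hab⟩ := hL (2 + k + m)
    obtain ⟨q, hq⟩ : ∃ q : ℕ, b = q := ⟨b.toNat, by omega⟩
    have hq1 : 1 ≤ q := by omega
    have hq2 : (2 : ℝ) ≤ q := by
      have : 2 ≤ q := by omega
      exact_mod_cast this
    have hq0 : (0 : ℝ) < q := by linarith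
    have h1 := h a q hq1
    rw [hq] at hab
    push_cast at hab
    have h2 : γ * (q : ℝ) ^ (-2 - τ) < 1 / (q : ℝ) ^ (2 + k + m) := lt_of_le_of_lt h1 hab
    have h3 : (q : ℝ) ^ (-2 - (k : ℝ)) ≤ (q : ℝ) ^ (-2 - τ) :=
      Real.rpow_le_rpow_of_exponent_le (by linarith) (by linarith)
    have h4 : (q : ℝ) ^ (-2 - (k : ℝ)) = 1 / (q : ℝ) ^ (2 + k) := by
      have e : (-2 - (k : ℝ)) = -((2 + k : ℕ) : ℝ) := by push_cast; ring
      rw [e, Real.rpow_neg hq0.le, Real.rpow_natCast, one_div]
    rw [h4] at h3
    have h5 : γ * (1 / (q : ℝ) ^ (2 + k)) < 1 / (q : ℝ) ^ (2 + k + m) :=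
      lt_of_le_of_lt (mul_le_mul_of_nonneg_left h3 hγ.le) h2
    rw [pow_add (q : ℝ) (2 + k) m, ← div_div, mul_one_div,
      div_div, div_lt_div_iff₀ (by positivity) (by positivity)] at h5
    have h6 : γ * (q : ℝ) ^ m < 1 := by
      have hp : 0 < (q : ℝ) ^ (2 + k) := by positivity
      have : (γ * (q : ℝ) ^ m) * (q : ℝ) ^ (2 + k) < 1 * (q : ℝ) ^ (2 + k) := by
        calc (γ * (q : ℝ) ^ m) * (q : ℝ) ^ (2 + k) = γ * ((q : ℝ) ^ (2 + k) * (q : ℝ) ^ m) := by
              ring
          _ < _ := h5
      exact lt_of_mul_lt_mul_right this hp.le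
    have h7 : (2 : ℝ) ^ m ≤ (q : ℝ) ^ m := pow_le_pow_left₀ (by norm_num) hq2 m
    have h8 : 1 < γ * 2 ^ m := by
      rw [div_lt_iff₀ hγ] at hm
      linarith
    have h9 := mul_le_mul_of_nonneg_left h7 hγ.le
    linarith
  app := by
    intro n hn
    refine ⟨PP n, PP_coprime n hn, ?_⟩
    have h1 : (qn n : ℝ) * al - PP n = qn n * LiouvilleNumber.remainder 3 n := by
      rw [← PP_eq, ← al_eq n]
      ring
    have hq : (0 : ℝ) < qn n := by
      unfold qn
      positivity
    have e1 : (qn (n + 1) : ℝ) = 3 ^ (n + 1).factorial := by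
      unfold qn
      push_cast
      rfl
    rw [h1, e1]
    constructor
    · have := mul_le_mul_of_nonneg_left (rem_ge n) hq.le
      rwa [mul_one_div] at this
    · have h2 := mul_le_mul_of_nonneg_left (rem_lt n).le hq.le
      refine h2.trans ?_
      have h3 : (0 : ℝ) < 1 / 3 ^ (n + 1).factorial := by positivity
      have h4 : 2 * (qn n : ℝ) / 3 ^ (n + 1).factorial = 2 * ((qn n : ℝ) *
        (1 / 3 ^ (n + 1).factorial)) := by ring
      rw [h4]
      have h5 := mul_pos hq h3
      linarith

end Q182.LV
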