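import Pool.Agent.Q289.LV.Stm

/-! Project LV (helper289), job B3 (helper182): the potential decreases linearly up to
`0.16 log T`. -/

set_option autoImplicit false

open Filter Topology

namespace Q182.LV

open Q289.LV

/-- the potential over consecutive blocks -/
lemma blocks {V : ℤ → ℝ} {q : ℤ} {f : ℤ → ℝ} (hf : ∀ i : ℤ, V ((i + 1) * q) - V (i * q) = f i)
    (D : ℝ) (i : ℤ) (n : ℕ) (h : ∀ j : ℤ, i ≤ j → j < i + n → f j ≤ -D) :
    V ((i + n) * q) - V (i * q) ≤ -(n * D) := by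
  induction n with
  | zero => simp
  | succ n ih =>
    have h1 := ih fun j h1 h2 => h j h1 (by push_cast; omega)
    have h2 := hf (i + n)
    have h3 := h (i + n) (by omega) (by push_cast; omega)
    push_cast
    have e : (i + ((n : ℤ) + 1)) = i + n + 1 := by ring
    rw [e]
    have e2 : ((n : ℝ) + 1) * D = n * D + D := by ring
    rw [e2]
    linarith

theorem b3 : S_B3 := by
  intro κ K hκ
  refine ⟨1024, fun T q β x w V φ φ₁ φ₂ hT hset m₂ hm₂ hosc hslope k k' hk hkk' hk' => ?_⟩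
  have hT' : (1024 : ℝ) ≤ T := by exact_mod_cast hT
  have hT0 : (0 : ℝ) < T := by linarith
  have hT1 : (1 : ℝ) ≤ T := by linarith
  have hq1 : (1 : ℝ) ≤ q := by exact_mod_cast hset.q1
  have hq0 : (0 : ℝ) < q := by linarith
  have K0 : 0 ≤ K := by linarith [hset.K1]
  have p01 : (2 : ℝ) ≤ (T : ℝ) ^ (0.1 : ℝ) := by
    have h1 : (1024 : ℝ) ^ (0.1 : ℝ) = 2 := by
      rw [show (1024 : ℝ) = 2 ^ (10 : ℝ) by norm_num, ← Real.rpow_mul (by norm_num)]
      norm_num
    rw [← h1]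
    exact Real.rpow_le_rpow (by norm_num) hT' (by norm_num)
  have hq01 : (q : ℝ) ≤ (T : ℝ) ^ (0.1 : ℝ) := by
    have h1 : (q : ℝ) ^ (10 : ℝ) ≤ T := by
      refine le_trans ?_ hset.qT
      rw [← Real.rpow_natCast]
      exact Real.rpow_le_rpow_of_exponent_le hq1 (by norm_num)
    have h2 := Real.rpow_le_rpow (Real.rpow_nonneg hq0.le _) h1 (show (0 : ℝ) ≤ 0.1 by norm_num)
    rw [← Real.rpow_mul hq0.le] at h2
    norm_num at h2
    norm_num
    exact h2
  have mono : ∀ a b : ℝ, a ≤ b → (T : ℝ) ^ a ≤ (T : ℝ) ^ b := fun a b hab =>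
    Real.rpow_le_rpow_of_exponent_le hT1 hab
  have h56 : (T : ℝ) ^ (0.5 : ℝ) + q ≤ (T : ℝ) ^ (0.6 : ℝ) := by
    have e : (T : ℝ) ^ (0.6 : ℝ) = (T : ℝ) ^ (0.1 : ℝ) * (T : ℝ) ^ (0.5 : ℝ) := by
      rw [← Real.rpow_add hT0]
      norm_num
    have h1 := mono 0.1 0.5 (by norm_num)
    have h2 : 0 < (T : ℝ) ^ (0.5 : ℝ) := Real.rpow_pos_of_pos hT0 _
    have h3 := mul_le_mul_of_nonneg_right p01 h2.le
    rw [e]
    linarith
  have h96 : (q : ℝ) ≤ (T : ℝ) ^ (0.96 : ℝ) := hq01.trans (mono _ _ (by norm_num))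
  have h98 : (T : ℝ) ^ (0.6 : ℝ) ≤ (T : ℝ) ^ (0.98 : ℝ) := mono _ _ (by norm_num)
  obtain ⟨η, hη⟩ : ∃ η : ℝ, η = (1 / 8) * (T : ℝ) ^ (-0.1 : ℝ) := ⟨_, rfl⟩
  have η0 : 0 < η := by
    rw [hη]
    have : 0 < (T : ℝ) ^ (-0.1 : ℝ) := Real.rpow_pos_of_pos hT0 _
    positivity
  have hηq : q * η ≤ 1 := by
    rw [hη]
    have h1 : (T : ℝ) ^ (0.1 : ℝ) * (T : ℝ) ^ (-0.1 : ℝ) = 1 := by
      rw [← Real.rpow_add hT0]
      norm_num
    have h2 : 0 < (T : ℝ) ^ (-0.1 : ℝ) := Real.rpow_pos_of_pos hT0 _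
    have h3 := mul_le_mul_of_nonneg_right hq01 h2.le
    rw [h1] at h3
    linarith
  obtain ⟨Y, hY⟩ : ∃ Y : ℝ, Y = (T : ℝ) ^ (0.96 : ℝ) := ⟨_, rfl⟩
  rw [← hY] at hk' h96 hosc hslope
  obtain ⟨O, hO⟩ : ∃ O : ℝ, O = 0.08 * Real.log T + (2 * K + 1) := ⟨_, rfl⟩
  simp only [← hO] at hosc
  have hYm : 3 * Y ≤ m₂ + (T : ℝ) ^ (0.5 : ℝ) := by
    have h1 : (k : ℝ) ≤ k' := by exact_mod_cast hkk'
    linarith
  -- the block of `0`
  have hm₂q : ((0 : ℤ) + 1 : ℝ) * q ≤ m₂ - 2 * Y := by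
    have h1 : (T : ℝ) ^ (0.5 : ℝ) + q ≤ Y := by
      rw [hY]
      exact h56.trans (mono _ _ (by norm_num))
    push_cast
    linarith
  -- the oscillation on the blocks
  have hblk : ∀ (i a b : ℤ), -(T : ℝ) ^ (0.5 : ℝ) - q ≤ i * q →
      ((i : ℝ) + 1) * q ≤ m₂ - 2 * Y → i * q ≤ a → a ≤ (i + 1) * q → i * q ≤ b →
      b ≤ (i + 1) * q → V a - V b ≤ O + 2 * K := by
    intro i a b hi1 hi2 ha1 ha2 hb1 hb2
    rcases le_or_gt 0 i with h | h
    · have := hosc i a b h hi2 ha1 ha2 hb1 hb2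
      linarith
    · have ea : (i + 1) * (q : ℤ) = i * q + q := by ring
      rw [ea] at ha2 hb2
      obtain ⟨r, hr⟩ : ∃ r : ℕ, a = i * q + r := ⟨(a - i * q).toNat, by omega⟩
      obtain ⟨s, hs⟩ : ∃ s : ℕ, b = i * q + s := ⟨(b - i * q).toNat, by omega⟩
      have hrq : r ≤ q := by omega
      have hsq : s ≤ q := by omega
      have hbd : ∀ r : ℕ, r ≤ q → K * r * |(i : ℝ)| * β ≤ K := by
        intro r hr
        have hr' : (r : ℝ) ≤ q := by exact_mod_cast hr
        have hineg : (i : ℝ) < 0 := by exact_mod_cast h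
        have h1 : (q : ℝ) * |(i : ℝ)| ≤ (T : ℝ) ^ (0.98 : ℝ) := by
          rw [abs_of_neg hineg]
          have : (q : ℝ) * -(i : ℝ) = -(i * q) := by ring
          rw [this]
          linarith
        have hβ := hset.β0
        calc K * r * |(i : ℝ)| * β ≤ K * q * |(i : ℝ)| * β := by
              gcongr
          _ = K * (β * (q * |(i : ℝ)|)) := by ring
          _ ≤ K * (β * (T : ℝ) ^ (0.98 : ℝ)) := by
              gcongr
          _ ≤ K * 1 := by
              have := hset.βT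
              gcongr
          _ = K := mul_one K
      have h1 := hset.shp 0 i r
      have h2 := hset.shp 0 i s
      rw [zero_add, zero_add] at h1 h2
      have h3 := (abs_le.1 (h1.trans (hbd r hrq))).2
      have h4 := (abs_le.1 (h2.trans (hbd s hsq))).1
      have h5 := hosc 0 r s le_rfl hm₂q (by simp) (by push_cast; omega) (by simp)
        (by push_cast; omega)
      rw [← hr] at h3
      rw [← hs] at h4
      linarith
  have hqZ : (0 : ℤ) < q := by exact_mod_cast hset.q1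
  obtain ⟨i, hi⟩ : ∃ i : ℤ, i = k / q := ⟨_, rfl⟩
  obtain ⟨i', hi'⟩ : ∃ i' : ℤ, i' = k' / q := ⟨_, rfl⟩
  have a1 : i * q ≤ k := by rw [hi]; exact Int.ediv_mul_le k hqZ.ne'
  have a2 : k < (i + 1) * q := by rw [hi]; exact Int.lt_ediv_add_one_mul_self k hqZ
  have a3 : i' * q ≤ k' := by rw [hi']; exact Int.ediv_mul_le k' hqZ.ne'
  have a4 : k' < (i' + 1) * q := by rw [hi']; exact Int.lt_ediv_add_one_mul_self k' hqZ
  have hii : i ≤ i' := by rw [hi, hi']; exact Int.ediv_le_ediv hqZ hkk'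
  have a1' : (i : ℝ) * q ≤ k := by exact_mod_cast a1
  have a2' : (k : ℝ) < ((i : ℝ) + 1) * q := by exact_mod_cast a2
  have a3' : (i' : ℝ) * q ≤ k' := by exact_mod_cast a3
  have a4' : (k' : ℝ) < ((i' : ℝ) + 1) * q := by exact_mod_cast a4
  have hii' : (i : ℝ) ≤ i' := by exact_mod_cast hii
  have hkk : (k : ℝ) ≤ k' := by exact_mod_cast hkk'
  have ei : ((i : ℝ) + 1) * q = i * q + q := by ring
  have ei' : ((i' : ℝ) + 1) * q = i' * q + q := by ring
  rw [ei] at a2'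
  rw [ei'] at a4'
  have hiiq : (i : ℝ) * q ≤ i' * q := mul_le_mul_of_nonneg_right hii' hq0.le
  have b1 : V (i * q) - V k ≤ O + 2 * K :=
    hblk i (i * q) k (by linarith) (by rw [ei]; linarith) le_rfl
      (by have : (i + 1) * (q : ℤ) = i * q + q := by ring
          omega) a1 a2.le
  have b2 : V k' - V (i' * q) ≤ O + 2 * K :=
    hblk i' k' (i' * q) (by linarith) (by rw [ei']; linarith) a3 a4.le le_rfl
      (by have : (i' + 1) * (q : ℤ) = i' * q + q := by ring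
          omega)
  obtain ⟨n, hn⟩ : ∃ n : ℕ, i' = i + n := ⟨(i' - i).toNat, by omega⟩
  have b3 := blocks (V := V) (q := (q : ℤ)) (f := fun i => φ (x + i * β)) hset.blk
    (q * η) i n (by
      intro j hj1 hj2
      have hj1' : (i : ℝ) ≤ j := by exact_mod_cast hj1
      have hj2' : (j : ℝ) ≤ i' := by
        have : j ≤ i' := by omega
        exact_mod_cast this
      have hjq1 : (i : ℝ) * q ≤ j * q := mul_le_mul_of_nonneg_right hj1' hq0.le
      have hjq2 : (j : ℝ) * q ≤ i' * q := mul_le_mul_of_nonneg_right hj2' hq0.le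
      have := hslope j (by linarith) (by linarith)
      refine this.trans (le_of_eq ?_)
      rw [hη]
      ring)
  rw [← hn] at b3
  have hn' : (i' : ℝ) = i + n := by exact_mod_cast hn
  have b4 : ((k' : ℝ) - k - q) * η ≤ n * (q * η) := by
    have h1 : (k' : ℝ) - k - q ≤ n * q := by
      have : (i' : ℝ) * q = i * q + n * q := by rw [hn']; ring
      linarith
    calc ((k' : ℝ) - k - q) * η ≤ (n * q) * η := mul_le_mul_of_nonneg_right h1 η0.le
      _ = _ := by ring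
  rw [← hη]
  have b5 : ((k' : ℝ) - k - q) * η = η * (k' - k) - q * η := by ring
  rw [b5] at b4
  rw [hO] at b1 b2
  linarith

end Q182.LV
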