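import Pool.Agent.Q289.LV.Stm

/-! Project LV (helper289), job B4 (helper182): a walk which reaches `m₂` is not split. -/

set_option autoImplicit false

open Filter Topology

namespace Q182.LV

open Q289.LV

/-- the asymptotic facts which are used -/
lemma asym (κ C : ℝ) : ∃ T₀ : ℕ, ∀ T : ℕ, T₀ ≤ T →
    (4 : ℝ) ≤ T ∧ 3 * (T : ℝ) ^ (0.96 : ℝ) ≤ (T : ℝ) ^ (0.99 : ℝ) / 8 ∧
    (16 : ℝ) ≤ (T : ℝ) ^ (0.99 : ℝ) ∧ (2 : ℝ) ≤ (T : ℝ) ^ (0.5 : ℝ) ∧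
    (32 * 512 * 256 * Real.exp (3 * C) / κ ^ 2) * (T : ℝ) ^ (-0.2 : ℝ) +
      2 * ((2 / κ) * Real.exp C * (T : ℝ) ^ (1.16 : ℝ) * Real.exp (-(1 / 64) * (T : ℝ) ^ (0.4 : ℝ)))
      < (T : ℝ) ^ (-0.02 : ℝ) := by
  have h1 : ∀ᶠ T : ℝ in atTop, 4 ≤ T := eventually_ge_atTop 4
  have h2 : ∀ᶠ T : ℝ in atTop, 24 ≤ T ^ (0.03 : ℝ) :=
    (tendsto_rpow_atTop (by norm_num)).eventually_ge_atTop 24
  have h3 : ∀ᶠ T : ℝ in atTop, 16 ≤ T ^ (0.99 : ℝ) :=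
    (tendsto_rpow_atTop (by norm_num)).eventually_ge_atTop 16
  have h4 : ∀ᶠ T : ℝ in atTop, 2 ≤ T ^ (0.5 : ℝ) :=
    (tendsto_rpow_atTop (by norm_num)).eventually_ge_atTop 2
  obtain ⟨K1, hK1⟩ : ∃ K1 : ℝ, K1 = 32 * 512 * 256 * Real.exp (3 * C) / κ ^ 2 := ⟨_, rfl⟩
  obtain ⟨K2, hK2⟩ : ∃ K2 : ℝ, K2 = 2 * ((2 / κ) * Real.exp C) := ⟨_, rfl⟩
  have t1 : Tendsto (fun T : ℝ => K1 * T ^ (-(0.18 : ℝ))) atTop (𝓝 0) := by
    have := (tendsto_rpow_neg_atTop (y := 0.18) (by norm_num)).const_mul K1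
    simpa using this
  have t2 : Tendsto (fun T : ℝ => K2 * (T ^ (1.18 : ℝ) * Real.exp (-(1 / 64) * T ^ (0.4 : ℝ))))
      atTop (𝓝 0) := by
    have h5 := tendsto_rpow_mul_exp_neg_mul_atTop_nhds_zero 2.95 (1 / 64) (by norm_num)
    have h6 : Tendsto (fun T : ℝ => T ^ (0.4 : ℝ)) atTop atTop :=
      tendsto_rpow_atTop (by norm_num)
    have h7 := (h5.comp h6).const_mul K2
    rw [mul_zero] at h7
    refine h7.congr' ?_
    filter_upwards [eventually_ge_atTop (0 : ℝ)] with T hT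
    simp only [Function.comp]
    rw [← Real.rpow_mul hT]
    norm_num
  have t3 := t1.add t2
  rw [add_zero] at t3
  have h8 : ∀ᶠ T : ℝ in atTop, K1 * T ^ (-(0.18 : ℝ)) +
      K2 * (T ^ (1.18 : ℝ) * Real.exp (-(1 / 64) * T ^ (0.4 : ℝ))) < 1 :=
    t3.eventually_lt_const one_pos
  have hall := h1.and (h2.and (h3.and (h4.and h8)))
  have hnat := tendsto_natCast_atTop_atTop (R := ℝ) |>.eventually hall
  obtain ⟨T₀, hT₀⟩ := eventually_atTop.1 hnat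
  refine ⟨T₀, fun T hT => ?_⟩
  obtain ⟨a1, a2, a3, a4, a5⟩ := hT₀ T hT
  have hT0 : (0 : ℝ) < T := by linarith
  refine ⟨a1, ?_, a3, a4, ?_⟩
  · have e : (T : ℝ) ^ (0.99 : ℝ) = (T : ℝ) ^ (0.03 : ℝ) * (T : ℝ) ^ (0.96 : ℝ) := by
      rw [← Real.rpow_add hT0]
      norm_num
    rw [e]
    have h9 : 0 < (T : ℝ) ^ (0.96 : ℝ) := Real.rpow_pos_of_pos hT0 _
    have h10 := mul_le_mul_of_nonneg_right a2 h9.le
    linarith
  · have h9 : 0 < (T : ℝ) ^ (-0.02 : ℝ) := Real.rpow_pos_of_pos hT0 _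
    have h10 := mul_lt_mul_of_pos_right a5 h9
    have e1 : (T : ℝ) ^ (-0.2 : ℝ) = (T : ℝ) ^ (-(0.18 : ℝ)) * (T : ℝ) ^ (-0.02 : ℝ) := by
      rw [← Real.rpow_add hT0]
      norm_num
    have e2 : (T : ℝ) ^ (1.16 : ℝ) = (T : ℝ) ^ (1.18 : ℝ) * (T : ℝ) ^ (-0.02 : ℝ) := by
      rw [← Real.rpow_add hT0]
      norm_num
    rw [← hK1, e1, e2]
    calc K1 * ((T : ℝ) ^ (-(0.18 : ℝ)) * (T : ℝ) ^ (-0.02 : ℝ)) +
          2 * ((2 / κ) * Real.exp C * ((T : ℝ) ^ (1.18 : ℝ) * (T : ℝ) ^ (-0.02 : ℝ)) *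
            Real.exp (-(1 / 64) * (T : ℝ) ^ (0.4 : ℝ)))
        = (K1 * (T : ℝ) ^ (-(0.18 : ℝ)) + K2 * ((T : ℝ) ^ (1.18 : ℝ) *
            Real.exp (-(1 / 64) * (T : ℝ) ^ (0.4 : ℝ)))) * (T : ℝ) ^ (-0.02 : ℝ) := by
          rw [hK2]; ring
      _ < 1 * (T : ℝ) ^ (-0.02 : ℝ) := h10
      _ = _ := one_mul _

/-- the tail bound -/
lemma tail {κ C T b μ : ℝ} (hκ : 0 < κ) (hT : 1 ≤ T) (hb : b ≤ T)
    (hμ : T ^ (0.99 : ℝ) / 16 ≤ μ) :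
    32 * b * (Real.exp C * T ^ (0.16 : ℝ)) ^ 3 /
      (κ ^ 2 * ((1 / 8) * T ^ (-0.1 : ℝ)) ^ 3 * μ ^ 2) ≤
      (32 * 512 * 256 * Real.exp (3 * C) / κ ^ 2) * T ^ (-0.2 : ℝ) := by
  have hT0 : 0 < T := by linarith
  have p1 : 0 < T ^ (0.99 : ℝ) := Real.rpow_pos_of_pos hT0 _
  have p2 : 0 < T ^ (-0.1 : ℝ) := Real.rpow_pos_of_pos hT0 _
  have p3 : 0 < T ^ (0.16 : ℝ) := Real.rpow_pos_of_pos hT0 _
  have h1 : 32 * b * (Real.exp C * T ^ (0.16 : ℝ)) ^ 3 /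
      (κ ^ 2 * ((1 / 8) * T ^ (-0.1 : ℝ)) ^ 3 * μ ^ 2) ≤
      32 * T * (Real.exp C * T ^ (0.16 : ℝ)) ^ 3 /
      (κ ^ 2 * ((1 / 8) * T ^ (-0.1 : ℝ)) ^ 3 * (T ^ (0.99 : ℝ) / 16) ^ 2) := by
    gcongr
  refine h1.trans (le_of_eq ?_)
  have e1 : (Real.exp C) ^ 3 = Real.exp (3 * C) := by
    rw [← Real.exp_nat_mul]
    norm_num
  have e2 : (T ^ (0.16 : ℝ)) ^ 3 = T ^ (0.48 : ℝ) := by
    rw [← Real.rpow_natCast, ← Real.rpow_mul hT0.le]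
    norm_num
  have e3 : (T ^ (-0.1 : ℝ)) ^ 3 = T ^ (-0.3 : ℝ) := by
    rw [← Real.rpow_natCast, ← Real.rpow_mul hT0.le]
    norm_num
  have e4 : (T ^ (0.99 : ℝ)) ^ 2 = T ^ (1.98 : ℝ) := by
    rw [← Real.rpow_natCast, ← Real.rpow_mul hT0.le]
    norm_num
  have e5 : T * T ^ (0.48 : ℝ) = T ^ (-0.2 : ℝ) * (T ^ (-0.3 : ℝ) * T ^ (1.98 : ℝ)) := by
    rw [← Real.rpow_add hT0, ← Real.rpow_add hT0]
    nth_rewrite 1 [← Real.rpow_one T]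
    rw [← Real.rpow_add hT0]
    norm_num
  rw [mul_pow (Real.exp C), mul_pow (1 / 8 : ℝ), div_pow (T ^ (0.99 : ℝ)), e1, e2, e3, e4]
  have q3 : 0 < T ^ (-0.3 : ℝ) := Real.rpow_pos_of_pos hT0 _
  have q4 : 0 < T ^ (1.98 : ℝ) := Real.rpow_pos_of_pos hT0 _
  rw [div_eq_iff (by positivity)]
  calc 32 * T * (Real.exp (3 * C) * T ^ (0.48 : ℝ))
      = 32 * Real.exp (3 * C) * (T * T ^ (0.48 : ℝ)) := by ring
    _ = 32 * Real.exp (3 * C) * (T ^ (-0.2 : ℝ) * (T ^ (-0.3 : ℝ) * T ^ (1.98 : ℝ))) := by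
        rw [e5]
    _ = _ := by
        field_simp
        ring

/-- the bound for a return against the drift -/
lemma back {κ C T V d : ℝ} (hκ : 0 < κ) (hT : 1 ≤ T) (hd : T ^ (0.5 : ℝ) / 8 ≤ d)
    (hV : V ≤ 0.16 * Real.log T + C - (1 / 8) * T ^ (-0.1 : ℝ) * d) :
    (T + 1) * ((1 / κ) * Real.exp V) ≤
      (2 / κ) * Real.exp C * T ^ (1.16 : ℝ) * Real.exp (-(1 / 64) * T ^ (0.4 : ℝ)) := by
  have hT0 : 0 < T := by linarith
  have p2 : 0 < T ^ (-0.1 : ℝ) := Real.rpow_pos_of_pos hT0 _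
  have h1 : (1 / 64) * T ^ (0.4 : ℝ) ≤ (1 / 8) * T ^ (-0.1 : ℝ) * d := by
    have e : T ^ (0.4 : ℝ) = T ^ (-0.1 : ℝ) * T ^ (0.5 : ℝ) := by
      rw [← Real.rpow_add hT0]
      norm_num
    rw [e]
    have := mul_le_mul_of_nonneg_left hd p2.le
    linarith
  have h2 : Real.exp V ≤ T ^ (0.16 : ℝ) * Real.exp C * Real.exp (-(1 / 64) * T ^ (0.4 : ℝ)) := by
    rw [Real.rpow_def_of_pos hT0 0.16, ← Real.exp_add, ← Real.exp_add]
    apply Real.exp_le_exp.2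
    linarith
  have e3 : T ^ (1.16 : ℝ) = T * T ^ (0.16 : ℝ) := by
    nth_rewrite 2 [← Real.rpow_one T]
    rw [← Real.rpow_add hT0]
    norm_num
  calc (T + 1) * ((1 / κ) * Real.exp V)
      ≤ (2 * T) * ((1 / κ) * (T ^ (0.16 : ℝ) * Real.exp C *
        Real.exp (-(1 / 64) * T ^ (0.4 : ℝ)))) := by
        gcongr
        linarith
    _ = _ := by
        rw [e3]
        ring

/-- the walk does not return against the drift -/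
lemma ret (h : S_Hit) (hr : S_Rev) {κ : ℝ} {w V : ℤ → ℝ} (he : Env κ w V) (a b : ℤ) (T : ℕ)
    (hab : a ≤ b) : HitL w a T b ≤ ((T : ℝ) + 1) * ((1 / κ) * Real.exp (V b - V a)) := by
  have hw : ∀ k, 0 ≤ w k ∧ w k ≤ 1 := fun k =>
    ⟨he.pos.le.trans (he.lo k), (he.hi k).trans (by linarith [he.pos])⟩
  refine (h.l6 w hw a T b hab).trans ?_
  refine (Finset.sum_le_sum fun s _ => hr κ w V he s b a).trans ?_
  rw [Finset.sum_const, Finset.card_range, nsmul_eq_mul]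
  push_cast
  exact le_rfl

theorem prod_eq {κ : ℝ} {w V : ℤ → ℝ} (he : Env κ w V) (v : ℤ → ℝ) (i : ℤ) (n : ℕ)
    (hv : ∀ j, i < j → v j = w j) :
    ∏ j ∈ Finset.Ioc i (i + n), ((1 - v j) / v j) = Real.exp (V (i + n) - V i) := by
  induction n with
  | zero => simp
  | succ n ih =>
    have e1 : Finset.Ioc i (i + ((n + 1 : ℕ) : ℤ)) = insert (i + n + 1) (Finset.Ioc i (i + n)) := by
      ext j
      simp only [Finset.mem_insert, Finset.mem_Ioc]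
      push_cast
      omega
    have e2 : (i + (n : ℤ) + 1) ∉ Finset.Ioc i (i + (n : ℤ)) := by
      simp
    rw [e1, Finset.prod_insert e2, ih, hv (i + n + 1) (by omega)]
    have h1 := he.lo (i + n + 1)
    have h2 := he.hi (i + n + 1)
    have h3 := he.pos
    have h4 : 0 < (1 - w (i + n + 1)) / w (i + n + 1) := div_pos (by linarith) (by linarith)
    have h5 := he.pot (i + n)
    rw [← Real.exp_log h4, ← h5, ← Real.exp_add]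
    congr 1
    push_cast
    rw [← add_assoc]
    ring

theorem b4 (h : S_Hit) (hr : S_Rev) (hconc : S_Conc) : S_B4 := by
  intro κ C hκ hC
  obtain ⟨T₀, hT₀⟩ := asym κ C
  refine ⟨T₀, fun T w V hTT he m₁ m₂ hm₂ hm hpot hboth => ?_⟩
  obtain ⟨hs1, hs2⟩ := hboth
  obtain ⟨a1, a2, a3, a4, a5⟩ := hT₀ T hTT
  have hT0 : (0 : ℝ) < T := by linarith
  have hT1 : (1 : ℝ) ≤ T := by linarith
  have hw : ∀ k, 0 ≤ w k ∧ w k ≤ 1 := fun k =>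
    ⟨he.pos.le.trans (he.lo k), (he.hi k).trans (by linarith [he.pos])⟩
  have hκ2 : κ ≤ 1 / 2 := by
    have h1 := he.lo 0
    have h2 := he.hi 0
    linarith
  obtain ⟨X, hX⟩ : ∃ X : ℝ, X = (T : ℝ) ^ (0.99 : ℝ) := ⟨_, rfl⟩
  obtain ⟨Y, hY⟩ : ∃ Y : ℝ, Y = (T : ℝ) ^ (0.96 : ℝ) := ⟨_, rfl⟩
  rw [← hX] at hm₂ hm a2 a3
  rw [← hY] at a2 hpot
  have Y0 : 0 < Y := by rw [hY]; exact Real.rpow_pos_of_pos hT0 _
  have ε0 : 0 < (T : ℝ) ^ (-0.02 : ℝ) := Real.rpow_pos_of_pos hT0 _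
  -- finite speed
  have hm2T : m₂ ≤ T := by
    by_contra hcon
    push Not at hcon
    have := h.h12 w m₂ T 0 (by simpa using hcon)
    rw [this] at hs2
    linarith
  have hm2T' : (m₂ : ℝ) ≤ T := by exact_mod_cast hm2T
  obtain ⟨L, hL⟩ : ∃ L : ℕ, L = ⌊(T : ℝ) ^ (0.5 : ℝ)⌋₊ := ⟨_, rfl⟩
  have hL1 : (L : ℝ) ≤ (T : ℝ) ^ (0.5 : ℝ) := by
    rw [hL]; exact Nat.floor_le (by linarith)
  have hL2 : (T : ℝ) ^ (0.5 : ℝ) / 8 ≤ L := by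
    have := Nat.lt_floor_add_one ((T : ℝ) ^ (0.5 : ℝ))
    rw [← hL] at this
    linarith
  obtain ⟨B, hB⟩ : ∃ B : ℤ, B = ⌊(m₂ : ℝ) - 3 * Y⌋ := ⟨_, rfl⟩
  have hB1 : (B : ℝ) ≤ m₂ - 3 * Y := by rw [hB]; exact Int.floor_le _
  obtain ⟨v, hv⟩ : ∃ v : ℤ → ℝ, v = fun k => if k ≤ -(L : ℤ) then 1 else w k := ⟨_, rfl⟩
  have hv1 : ∀ k : ℤ, k ≤ -(L : ℤ) → v k = 1 := fun k hk => by rw [hv]; exact if_pos hk
  have hv2 : ∀ k : ℤ, -(L : ℤ) < k → v k = w k := fun k hk => by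
    rw [hv]; exact if_neg (not_le.2 hk)
  have hA1 : 1 ≤ Real.exp C * (T : ℝ) ^ (0.16 : ℝ) := by
    have h1 : 1 ≤ Real.exp C := Real.one_le_exp hC
    have h2 : 1 ≤ (T : ℝ) ^ (0.16 : ℝ) := Real.one_le_rpow hT1 (by norm_num)
    nlinarith
  have hσ0 : 0 < (1 / 8) * (T : ℝ) ^ (-0.1 : ℝ) := by
    have : 0 < (T : ℝ) ^ (-0.1 : ℝ) := Real.rpow_pos_of_pos hT0 _
    linarith
  have hσ1 : (1 / 8) * (T : ℝ) ^ (-0.1 : ℝ) ≤ 1 := by
    have : (T : ℝ) ^ (-0.1 : ℝ) ≤ 1 := Real.rpow_le_one_of_one_le_of_nonpos hT1 (by norm_num)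
    linarith
  obtain ⟨μ, hμ1, hμ2⟩ := hconc κ (Real.exp C * (T : ℝ) ^ (0.16 : ℝ))
    ((1 / 8) * (T : ℝ) ^ (-0.1 : ℝ)) L B v hκ hκ2 hA1 hσ0 hσ1 hv1
    (fun k hk => by rw [hv2 k hk]; exact ⟨he.lo k, he.hi k⟩) (by
      intro i k hi hik hkB
      obtain ⟨n, rfl⟩ : ∃ n : ℕ, k = i + n := ⟨(k - i).toNat, by omega⟩
      rw [prod_eq he v i n fun j hj => hv2 j (by omega)]
      have hi' : -(L : ℝ) ≤ i := by exact_mod_cast hi
      have hk' : ((i + n : ℤ) : ℝ) ≤ B := by exact_mod_cast hkB.le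
      have h1 := hpot i (i + n) (by linarith) hik (by linarith)
      have h2 : Real.exp C * (T : ℝ) ^ (0.16 : ℝ) *
          Real.exp (-((1 / 8) * (T : ℝ) ^ (-0.1 : ℝ)) * (((i + n : ℤ) : ℝ) - i)) =
          Real.exp (0.16 * Real.log T + C -
            (1 / 8) * (T : ℝ) ^ (-0.1 : ℝ) * (((i + n : ℤ) : ℝ) - i)) := by
        rw [Real.rpow_def_of_pos hT0 0.16, ← Real.exp_add, ← Real.exp_add]
        congr 1
        ring
      rw [h2]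
      exact Real.exp_le_exp.2 h1)
  -- the points
  obtain ⟨b2, hb2⟩ : ∃ b2 : ℤ, b2 = ⌈max (m₁ : ℝ) 0 + X / 8⌉ := ⟨_, rfl⟩
  obtain ⟨b1, hb1⟩ : ∃ b1 : ℤ, b1 = ⌊(m₂ : ℝ) - X / 8⌋ := ⟨_, rfl⟩
  have c1 : max (m₁ : ℝ) 0 + X / 8 ≤ b2 := by rw [hb2]; exact Int.le_ceil _
  have c2 : (b2 : ℝ) < max (m₁ : ℝ) 0 + X / 8 + 1 := by rw [hb2]; exact Int.ceil_lt_add_one _
  have c3 : (b1 : ℝ) ≤ m₂ - X / 8 := by rw [hb1]; exact Int.floor_le _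
  have c4 : (m₂ : ℝ) - X / 8 < b1 + 1 := by rw [hb1]; exact Int.lt_floor_add_one _
  have hmax : max (m₁ : ℝ) 0 ≤ m₂ - X / 2 := max_le (by linarith) (by linarith)
  have hm0 : (0 : ℝ) ≤ max (m₁ : ℝ) 0 := le_max_right _ _
  have hm1 : (m₁ : ℝ) ≤ max (m₁ : ℝ) 0 := le_max_left _ _
  have c5 : X / 8 ≤ (b1 : ℝ) - b2 := by linarith
  have hb2pos : 0 < b2 := by
    have : (0 : ℝ) < b2 := by linarith
    exact_mod_cast this
  have hb21 : b2 ≤ b1 := by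
    have : (b2 : ℝ) ≤ b1 := by linarith
    exact_mod_cast this
  have hb1B : b1 ≤ B := by
    rw [hb1, hB]
    exact Int.floor_le_floor (by linarith)
  have hb1m : b1 ≤ m₂ := by
    have : (b1 : ℝ) ≤ m₂ := by linarith
    exact_mod_cast this
  have hμ := hμ1 b2 b1 hb2pos.le hb21 hb1B
  -- the return to `-L`
  have hret : HitL w (-(L : ℤ)) T 0 ≤ (2 / κ) * Real.exp C * (T : ℝ) ^ (1.16 : ℝ) *
      Real.exp (-(1 / 64) * (T : ℝ) ^ (0.4 : ℝ)) := by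
    refine (ret h hr he (-(L : ℤ)) 0 T (by omega)).trans ?_
    refine back hκ hT1 hL2 ?_
    have h1 := hpot (-(L : ℤ)) 0 (by push_cast; linarith) (by omega) (by push_cast; linarith)
    push_cast at h1
    have e : (0 : ℝ) - -(L : ℝ) = L := by ring
    rw [e] at h1
    exact h1
  have h9 : ∀ b : ℤ, |Hit w b T 0 - Hit v b T 0| ≤ HitL w (-(L : ℤ)) T 0 := fun b =>
    h.h9 w v hw L hv1 hv2 b T 0
  rcases le_or_gt ((T : ℝ) + X / 16) (μ b1) with hc | hc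
  · -- the walk is too slow to reach `b1`
    have h1 := (hμ2 b1 T (by omega) hb1B).1 (by linarith)
    have hb1T : (b1 : ℝ) ≤ T := by linarith
    have h2 := tail (κ := κ) (C := C) (T := (T : ℝ)) (b := (b1 : ℝ)) (μ := μ b1 - T) hκ hT1 hb1T
      (by rw [← hX]; linarith)
    have h3 := h.h5 w hw m₂ T 0
    have h4 := h.h4 w hw b1 m₂ T 0 hb1m
    have h5 := (abs_le.1 (h9 b1)).2
    have h6 : 0 ≤ (2 / κ) * Real.exp C * (T : ℝ) ^ (1.16 : ℝ) *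
      Real.exp (-(1 / 64) * (T : ℝ) ^ (0.4 : ℝ)) := by positivity
    linarith
  · -- the walk passes `b2` and does not return
    have hμb2 : μ b2 ≤ T - X / 16 := by linarith
    have h1 := (hμ2 b2 T hb2pos (hb21.trans hb1B)).2 (by linarith)
    have hb2T : (b2 : ℝ) ≤ T := by
      have : (b2 : ℝ) ≤ b1 := by exact_mod_cast hb21
      linarith
    have h2 := tail (κ := κ) (C := C) (T := (T : ℝ)) (b := (b2 : ℝ)) (μ := T - μ b2) hκ hT1 hb2T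
      (by rw [← hX]; linarith)
    have hm1b : m₁ < b2 := by
      have : (m₁ : ℝ) < b2 := by linarith
      exact_mod_cast this
    have h3 := h.h8 w hw m₁ b2 T 0 hm1b hb2pos.le
    have h5 := (abs_le.1 (h9 b2)).1
    have h6 := h.l4 w hw m₁ (max m₁ (-(L : ℤ))) T b2 (le_max_left _ _)
    have hLb : -(L : ℤ) ≤ b2 := by omega
    have h7 := ret h hr he (max m₁ (-(L : ℤ))) b2 T (max_le hm1b.le hLb)
    have hmaxc : ((max m₁ (-(L : ℤ)) : ℤ) : ℝ) ≤ max (m₁ : ℝ) 0 := by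
      push_cast
      apply max_le_max le_rfl
      have : (0 : ℝ) ≤ L := Nat.cast_nonneg _
      linarith
    have hX5 : (T : ℝ) ^ (0.5 : ℝ) ≤ X := by
      rw [hX]
      exact Real.rpow_le_rpow_of_exponent_le hT1 (by norm_num)
    have hb2B : (b2 : ℝ) ≤ B := by exact_mod_cast hb21.trans hb1B
    have h8 := back (κ := κ) (C := C) (T := (T : ℝ)) (V := V b2 - V (max m₁ (-(L : ℤ))))
      (d := (b2 : ℝ) - ((max m₁ (-(L : ℤ)) : ℤ) : ℝ)) hκ hT1 (by linarith) (by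
        refine hpot _ _ ?_ (max_le hm1b.le hLb) (by linarith)
        have h10 : (-(L : ℤ)) ≤ max m₁ (-(L : ℤ)) := le_max_right _ _
        have h11 : -(L : ℝ) ≤ ((max m₁ (-(L : ℤ)) : ℤ) : ℝ) := by exact_mod_cast h10
        linarith)
    linarith

end Q182.LV
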