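import Pool.Agent.Q289.LV.Stm

/-! Project LV (helper289), jobs CALC and BAD (helper182). -/

set_option autoImplicit false

open Filter Topology MeasureTheory

namespace Q182.LV

open Q289.LV

/-- second order Taylor inequality to the right -/
lemma taylor_right {Φ Φ₁ Φ₂ : ℝ → ℝ} {B : ℝ} (h1 : ∀ s, HasDerivAt Φ (Φ₁ s) s)
    (h2 : ∀ s, HasDerivAt Φ₁ (Φ₂ s) s) (hB : ∀ s, |Φ₂ s| ≤ B) (s r : ℝ) (hr : 0 ≤ r) :
    Φ (s + r) ≤ Φ s + Φ₁ s * r + B * r ^ 2 / 2 := by
  have hd1 : ∀ t : ℝ, 0 ≤ t → Φ₁ (s + t) ≤ Φ₁ s + B * t := by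
    intro t ht
    rcases ht.eq_or_lt with h | h
    · rw [← h]; simp
    · obtain ⟨c, -, hc⟩ := exists_hasDerivAt_eq_slope Φ₁ Φ₂ (show s < s + t by linarith)
        (fun y _ => (h2 y).continuousAt.continuousWithinAt) (fun y _ => h2 y)
      have h3 : Φ₁ (s + t) - Φ₁ s = Φ₂ c * t := by
        rw [hc]
        have : s + t - s = t := by ring
        rw [this]
        field_simp
      have h4 : Φ₂ c * t ≤ B * t := mul_le_mul_of_nonneg_right ((abs_le.1 (hB c)).2) h.le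
      linarith
  obtain ⟨g, hg⟩ : ∃ g : ℝ → ℝ, g = fun t => Φ s + Φ₁ s * t + B * t ^ 2 / 2 - Φ (s + t) :=
    ⟨_, rfl⟩
  have hgd : ∀ t, HasDerivAt g (Φ₁ s + B * t - Φ₁ (s + t)) t := by
    intro t
    rw [hg]
    have e1 : HasDerivAt (fun t : ℝ => Φ (s + t)) (Φ₁ (s + t)) t := by
      simpa using (h1 (s + t)).comp_const_add s t
    have e2 : HasDerivAt (fun t : ℝ => B * t ^ 2 / 2) (B * t) t := by
      refine (((hasDerivAt_pow 2 t).const_mul B).div_const 2).congr_deriv ?_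
      norm_num
      ring
    have e3 : HasDerivAt (fun t : ℝ => Φ s + Φ₁ s * t) (Φ₁ s) t := by
      simpa using ((hasDerivAt_id t).const_mul (Φ₁ s)).const_add (Φ s)
    exact (e3.add e2).sub e1
  have hmono : MonotoneOn g (Set.Ici 0) := by
    apply monotoneOn_of_deriv_nonneg (convex_Ici 0)
    · exact fun t _ => (hgd t).continuousAt.continuousWithinAt
    · exact fun t _ => (hgd t).differentiableAt.differentiableWithinAt
    · intro t ht
      rw [interior_Ici] at ht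
      rw [(hgd t).deriv]
      linarith [hd1 t (le_of_lt ht)]
  have h5 := hmono (Set.mem_Ici.2 le_rfl) (Set.mem_Ici.2 hr) hr
  rw [hg] at h5
  simp at h5
  linarith

lemma taylor_left {Φ Φ₁ Φ₂ : ℝ → ℝ} {B : ℝ} (h1 : ∀ s, HasDerivAt Φ (Φ₁ s) s)
    (h2 : ∀ s, HasDerivAt Φ₁ (Φ₂ s) s) (hB : ∀ s, |Φ₂ s| ≤ B) (s r : ℝ) (hr : 0 ≤ r) :
    Φ (s - r) ≤ Φ s - Φ₁ s * r + B * r ^ 2 / 2 := by
  have e1 : ∀ t, HasDerivAt (fun t => Φ (-t)) (-Φ₁ (-t)) t := fun t => by
    have := (h1 (-t)).comp t (hasDerivAt_neg t)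
    simpa [Function.comp_def] using this
  have e2 : ∀ t, HasDerivAt (fun t => -Φ₁ (-t)) (Φ₂ (-t)) t := fun t => by
    have := ((h2 (-t)).comp t (hasDerivAt_neg t)).fun_neg
    simpa [Function.comp_def] using this
  have := taylor_right e1 e2 (fun t => hB (-t)) (-s) r hr
  simp only [neg_neg] at this
  have e : -(-s + r) = s - r := by ring
  rw [e] at this
  linarith

theorem calcS : S_Calc := by
  intro Φ Φ₁ Φ₂ B η n N h1 h2 hB hη hn hnN hBn hsum h0 s hs0 hsN
  by_contra hcon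
  push Not at hcon
  have B0 : 0 ≤ B := (abs_nonneg _).trans (hB 0)
  obtain ⟨z, hz, hmin⟩ := isCompact_Icc.exists_isMinOn
    (⟨0, le_rfl, hs0.trans hsN⟩ : (Set.Icc (0 : ℝ) ((N : ℝ) - n - 1)).Nonempty)
    (fun y _ => (h1 y).continuousAt.continuousWithinAt)
  have hzs : Φ z ≤ Φ s := hmin ⟨hs0, hsN⟩
  have hz0 : 0 < z := by
    rcases hz.1.eq_or_lt with h | h
    · rw [← h] at hzs
      linarith
    · exact h
  have hder : Φ₁ z ≤ 0 := by
    by_contra hc
    push Not at hc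
    obtain ⟨r, hr⟩ : ∃ r : ℝ, r = min z (Φ₁ z / (B + 1)) := ⟨_, rfl⟩
    have hB1 : 0 < B + 1 := by linarith
    have r0 : 0 < r := by rw [hr]; exact lt_min hz0 (by positivity)
    have rz : r ≤ z := by rw [hr]; exact min_le_left _ _
    have rB : r * (B + 1) ≤ Φ₁ z := by
      have : r ≤ Φ₁ z / (B + 1) := by rw [hr]; exact min_le_right _ _
      rwa [le_div_iff₀ hB1] at this
    have h3 := taylor_left h1 h2 hB z r r0.le
    have h4 : Φ z ≤ Φ (z - r) := hmin ⟨by linarith, by linarith [hz.2]⟩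
    have h5 : r * (B + 1) * r ≤ Φ₁ z * r := mul_le_mul_of_nonneg_right rB r0.le
    have h6 : 0 < r * r := mul_pos r0 r0
    have h7 : 0 ≤ B * (r * r) := mul_nonneg B0 h6.le
    have e1 : r * (B + 1) * r = B * (r * r) + r * r := by ring
    have e2 : B * r ^ 2 / 2 = B * (r * r) / 2 := by ring
    rw [e1] at h5
    rw [e2] at h3
    linarith
  obtain ⟨i, hi⟩ : ∃ i : ℕ, i = ⌈z⌉₊ := ⟨_, rfl⟩
  have hi1 : z ≤ i := by rw [hi]; exact Nat.le_ceil z
  have hi2 : (i : ℝ) < z + 1 := by rw [hi]; exact Nat.ceil_lt_add_one hz0.le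
  have hiN : i + n ≤ N := by
    have : (i : ℝ) + n < N := by linarith [hz.2]
    have h3 : ((i + n : ℕ) : ℝ) < N := by push_cast; exact this
    exact_mod_cast h3.le
  have hn1 : (1 : ℝ) ≤ n := by exact_mod_cast hn
  have hlt : ∑ j ∈ Finset.range n, Φ ((i : ℝ) + j) < ∑ j ∈ Finset.range n, 2 * η := by
    apply Finset.sum_lt_sum_of_nonempty (Finset.nonempty_range_iff.2 (by omega))
    intro j hj
    have hj' : (j : ℝ) + 1 ≤ n := by
      have := Finset.mem_range.1 hj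
      exact_mod_cast this
    have hj0 : (0 : ℝ) ≤ j := Nat.cast_nonneg j
    have h3 := taylor_right h1 h2 hB z ((i : ℝ) + j - z) (by linarith)
    have e : z + ((i : ℝ) + j - z) = i + j := by ring
    rw [e] at h3
    have h4 : Φ₁ z * ((i : ℝ) + j - z) ≤ 0 :=
      mul_nonpos_of_nonpos_of_nonneg hder (by linarith)
    have h5 : ((i : ℝ) + j - z) ^ 2 ≤ ((n : ℝ) + 1) ^ 2 :=
      pow_le_pow_left₀ (by linarith) (by linarith) 2
    have h6 : B * ((i : ℝ) + j - z) ^ 2 ≤ B * ((n : ℝ) + 1) ^ 2 :=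
      mul_le_mul_of_nonneg_left h5 B0
    linarith
  rw [Finset.sum_const, Finset.card_range, nsmul_eq_mul] at hlt
  have := hsum i hiN
  linarith

theorem bad : S_Bad := by
  intro φ φ₁ φ₂ B η κ a h1 h2 hB1 hB2 hη hκ
  rcases Set.eq_empty_or_nonempty {y : ℝ | y ∈ Set.Icc a (a + 1) ∧ |φ y| < η ∧ κ < |φ₁ y|}
    with hE | ⟨y0, hy0⟩
  · rw [hE]
    simp
  have hκB : κ < B := hy0.2.2.trans_le (hB1 y0)
  have B0 : 0 < B := hκ.trans hκB
  obtain ⟨m, hm⟩ : ∃ m : ℕ, m = ⌈2 * B / κ⌉₊ := ⟨_, rfl⟩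
  have hm1 : 2 * B / κ ≤ m := by rw [hm]; exact Nat.le_ceil _
  have hm2 : (m : ℝ) ≤ 3 * B / κ := by
    have h3 : (m : ℝ) < 2 * B / κ + 1 := by rw [hm]; exact Nat.ceil_lt_add_one (by positivity)
    have h4 : 1 ≤ B / κ := by rw [le_div_iff₀ hκ]; linarith
    have e1 : 2 * B / κ = 2 * (B / κ) := by ring
    have e2 : 3 * B / κ = 3 * (B / κ) := by ring
    rw [e1] at h3
    rw [e2]
    linarith
  have m0 : (0 : ℝ) < m := lt_of_lt_of_le (by positivity) hm1
  have m0' : 0 < m := by exact_mod_cast m0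
  have hlen : B * (1 / m) ≤ κ / 2 := by
    rw [div_le_iff₀ hκ] at hm1
    rw [mul_one_div, div_le_iff₀ m0]
    linarith
  -- two points of the set in a short interval
  have hpair : ∀ y y' : ℝ, y < y' → y' - y ≤ 1 / m → |φ y| < η → |φ y'| < η → κ < |φ₁ y| →
      y' - y ≤ 4 * η / κ := by
    intro y y' hyy hd hy hy' hyk
    obtain ⟨c, hc, hc'⟩ := exists_hasDerivAt_eq_slope φ φ₁ hyy
      (fun y _ => (h1 y).continuousAt.continuousWithinAt) (fun y _ => h1 y)
    obtain ⟨b, hb, hb'⟩ := exists_hasDerivAt_eq_slope φ₁ φ₂ hc.1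
      (fun y _ => (h2 y).continuousAt.continuousWithinAt) (fun y _ => h2 y)
    have hcy : 0 < c - y := by linarith [hc.1]
    have hyy' : 0 < y' - y := by linarith
    have e1 : φ₁ c - φ₁ y = φ₂ b * (c - y) := by
      rw [hb']
      field_simp
    have e2 : φ y' - φ y = φ₁ c * (y' - y) := by
      rw [hc']
      field_simp
    have h3 : |φ₁ c - φ₁ y| ≤ κ / 2 := by
      rw [e1, abs_mul, abs_of_pos hcy]
      calc |φ₂ b| * (c - y) ≤ B * (1 / m) := by
            have := hB2 b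
            have h4 : c - y ≤ 1 / m := by linarith [hc.2]
            gcongr
        _ ≤ κ / 2 := hlen
    have h4 : κ / 2 ≤ |φ₁ c| := by
      have h5 : |φ₁ y| ≤ |φ₁ c| + |φ₁ c - φ₁ y| := by
        have := abs_sub_abs_le_abs_sub (φ₁ y) (φ₁ c)
        rw [abs_sub_comm] at this
        linarith
      linarith
    have h5 : κ / 2 * (y' - y) ≤ 2 * η := by
      calc κ / 2 * (y' - y) ≤ |φ₁ c| * (y' - y) := mul_le_mul_of_nonneg_right h4 hyy'.le
        _ = |φ y' - φ y| := by rw [e2, abs_mul, abs_of_pos hyy']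
        _ ≤ |φ y'| + |φ y| := abs_sub _ _
        _ ≤ 2 * η := by linarith
    rw [le_div_iff₀ hκ]
    linarith
  -- cover
  have hcov : {y : ℝ | y ∈ Set.Icc a (a + 1) ∧ |φ y| < η ∧ κ < |φ₁ y|} ⊆
      ⋃ i ∈ Finset.range m, {y : ℝ | y ∈ Set.Icc (a + i / m) (a + (i + 1) / m) ∧ |φ y| < η ∧
        κ < |φ₁ y|} := by
    rintro y ⟨⟨hy1, hy2⟩, hy3⟩
    rw [Set.mem_iUnion₂]
    rcases hy2.eq_or_lt with h | h
    · refine ⟨m - 1, Finset.mem_range.2 (by omega), ⟨?_, ?_⟩, hy3⟩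
      · have e : ((m - 1 : ℕ) : ℝ) = m - 1 := by
          rw [Nat.cast_sub (by omega)]; simp
        rw [e, h, add_le_add_iff_left, div_le_one m0]
        linarith
      · have e : ((m - 1 : ℕ) : ℝ) = m - 1 := by
          rw [Nat.cast_sub (by omega)]; simp
        rw [e, h]
        have : ((m : ℝ) - 1 + 1) / m = 1 := by field_simp; ring
        rw [this]
    · have hu0 : 0 ≤ (y - a) * m := mul_nonneg (by linarith) m0.le
      refine ⟨⌊(y - a) * m⌋₊, ?_, ⟨?_, ?_⟩, hy3⟩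
      · rw [Finset.mem_range, Nat.floor_lt hu0]
        calc (y - a) * m < 1 * m := by
              apply mul_lt_mul_of_pos_right _ m0
              linarith
          _ = m := one_mul _
      · have := Nat.floor_le hu0
        have h4 : (⌊(y - a) * m⌋₊ : ℝ) / m ≤ y - a := by
          rw [div_le_iff₀ m0]; exact this
        linarith
      · have := Nat.lt_floor_add_one ((y - a) * m)
        have h4 : y - a ≤ ((⌊(y - a) * m⌋₊ : ℝ) + 1) / m := by
          rw [le_div_iff₀ m0]; exact this.le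
        linarith
  refine (measure_mono hcov).trans ?_
  refine (measure_biUnion_finset_le _ _).trans ?_
  have hone : ∀ i ∈ Finset.range m, volume {y : ℝ | y ∈ Set.Icc (a + (i : ℝ) / m)
      (a + ((i : ℝ) + 1) / m) ∧ |φ y| < η ∧ κ < |φ₁ y|} ≤ ENNReal.ofReal (4 * η / κ) := by
    intro i _
    refine (Real.volume_le_diam _).trans ?_
    refine Metric.ediam_le ?_
    have hsym : ∀ y ∈ {y : ℝ | y ∈ Set.Icc (a + (i : ℝ) / m) (a + ((i : ℝ) + 1) / m) ∧
        |φ y| < η ∧ κ < |φ₁ y|}, ∀ y' ∈ {y : ℝ | y ∈ Set.Icc (a + (i : ℝ) / m)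
        (a + ((i : ℝ) + 1) / m) ∧ |φ y| < η ∧ κ < |φ₁ y|}, y < y' → y' - y ≤ 4 * η / κ := by
      rintro y ⟨⟨hy1, hy2⟩, hy3, hy4⟩ y' ⟨⟨hy1', hy2'⟩, hy3', hy4'⟩ hlt
      refine hpair y y' hlt ?_ hy3 hy3' hy4
      have e : (a + ((i : ℝ) + 1) / m) - (a + (i : ℝ) / m) = 1 / m := by ring
      linarith
    intro y hy y' hy'
    rw [edist_dist]
    apply ENNReal.ofReal_le_ofReal
    rw [Real.dist_eq]
    rcases lt_trichotomy y y' with h | h | h
    · rw [abs_sub_comm, abs_of_pos (by linarith)]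
      exact hsym y hy y' hy' h
    · rw [h]
      simp
      positivity
    · rw [abs_of_pos (by linarith)]
      exact hsym y' hy' y hy h
  refine (Finset.sum_le_sum hone).trans ?_
  rw [Finset.sum_const, Finset.card_range, nsmul_eq_mul]
  have e : (m : ENNReal) = ENNReal.ofReal m := by simp
  rw [e, ← ENNReal.ofReal_mul m0.le]
  apply ENNReal.ofReal_le_ofReal
  calc (m : ℝ) * (4 * η / κ) ≤ (3 * B / κ) * (4 * η / κ) :=
        mul_le_mul_of_nonneg_right hm2 (by positivity)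
    _ = 12 * B * η / κ ^ 2 := by
        field_simp
        ring

end Q182.LV
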