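import Pool.Agent.Q289.LV.Stm

/-! Project LV (helper289), job EQ (helper182): equidistribution of the points `x + j P / q`. -/

set_option autoImplicit false

open Filter Topology MeasureTheory

namespace Q182.LV

open Q289.LV

/-- the sum over the `q`-th division points -/
noncomputable def AA (q : ℕ) (g : ℝ → ℝ) (x : ℝ) : ℝ := ∑ j ∈ Finset.range q, g (x + j / q)

lemma per_nat {g : ℝ → ℝ} (hg : ∀ x, g (x + 1) = g x) (x : ℝ) (n : ℕ) : g (x + n) = g x := by
  induction n with
  | zero => simp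
  | succ n ih =>
    push_cast
    rw [← add_assoc, hg, ih]

/-- the permutation `j ↦ j P` of the residues -/
lemma perm {g : ℝ → ℝ} (hg : ∀ x, g (x + 1) = g x) (q P : ℕ) (hq : 1 ≤ q) (hP : P.Coprime q)
    (x : ℝ) : ∑ j ∈ Finset.range q, g (x + j * (P / q)) = AA q g x := by
  have : NeZero q := ⟨by omega⟩
  have hq0 : (q : ℝ) ≠ 0 := by
    have : (0 : ℝ) < q := by exact_mod_cast hq
    exact this.ne'
  have key : ∀ n : ℕ, g (x + (n : ℝ) / q) = g (x + ((n : ZMod q).val : ℝ) / q) := by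
    intro n
    rw [ZMod.val_natCast]
    have h1 : (n : ℝ) / q = ((n % q : ℕ) : ℝ) / q + ((n / q : ℕ) : ℝ) := by
      have h2 : n = n % q + q * (n / q) := (Nat.mod_add_div n q).symm
      have h3 : (n : ℝ) = ((n % q : ℕ) : ℝ) + q * ((n / q : ℕ) : ℝ) := by exact_mod_cast h2
      rw [eq_comm, h3]
      rw [← h3]
      field_simp
      linarith
    rw [h1, ← add_assoc, per_nat hg]
  have hall : ∀ f : ZMod q → ℝ, ∑ j ∈ Finset.range q, f (j : ZMod q) = ∑ a : ZMod q, f a := by
    intro f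
    refine Finset.sum_nbij' (fun j => (j : ZMod q)) (fun a => a.val) ?_ ?_ ?_ ?_ ?_
    · intro a _; exact Finset.mem_univ _
    · intro a _; exact Finset.mem_range.2 (ZMod.val_lt a)
    · intro j hj; exact ZMod.val_natCast_of_lt (Finset.mem_range.1 hj)
    · intro a _; exact ZMod.natCast_zmod_val a
    · intro j _; rfl
  have h1 : ∑ j ∈ Finset.range q, g (x + j * (P / q)) =
      ∑ j ∈ Finset.range q, (fun a : ZMod q => g (x + ((a * (P : ZMod q)).val : ℝ) / q))
        (j : ZMod q) := by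
    refine Finset.sum_congr rfl fun j _ => ?_
    have e : (j : ℝ) * ((P : ℝ) / q) = ((j * P : ℕ) : ℝ) / q := by
      push_cast
      ring
    rw [e, key]
    simp
  have h2 : AA q g x = ∑ j ∈ Finset.range q, (fun a : ZMod q => g (x + (a.val : ℝ) / q))
        (j : ZMod q) := by
    refine Finset.sum_congr rfl fun j _ => ?_
    exact key j
  rw [h1, h2, hall fun a => g (x + ((a * (P : ZMod q)).val : ℝ) / q),
    hall fun a => g (x + (a.val : ℝ) / q)]
  exact Fintype.sum_equiv (Units.mulRight (ZMod.unitOfCoprime P hP)) _ _ (fun a => by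
    simp [Units.mulRight])

lemma AA_per {g : ℝ → ℝ} (hg : ∀ x, g (x + 1) = g x) (q : ℕ) (hq : 1 ≤ q) (x : ℝ) :
    AA q g (x + 1 / q) = AA q g x := by
  obtain ⟨n, rfl⟩ : ∃ n, q = n + 1 := ⟨q - 1, by omega⟩
  have hq0 : ((n + 1 : ℕ) : ℝ) ≠ 0 := by positivity
  unfold AA
  rw [Finset.sum_range_succ, Finset.sum_range_succ']
  congr 1
  · refine Finset.sum_congr rfl fun j _ => ?_
    congr 1
    push_cast
    ring
  · have e : x + 1 / ((n + 1 : ℕ) : ℝ) + (n : ℝ) / ((n + 1 : ℕ) : ℝ) = x + 1 := by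
      have : 1 / ((n + 1 : ℕ) : ℝ) + (n : ℝ) / ((n + 1 : ℕ) : ℝ) = 1 := by
        rw [← add_div]
        push_cast
        push_cast at hq0
        rw [add_comm]
        exact div_self hq0
      rw [add_assoc, this]
    rw [e, hg]
    simp

lemma AA_per_int {g : ℝ → ℝ} (hg : ∀ x, g (x + 1) = g x) (q : ℕ) (hq : 1 ≤ q) (x : ℝ) (n : ℤ) :
    AA q g (x + n * (1 / q)) = AA q g x := by
  have h : Function.Periodic (AA q g) (1 / q) := fun x => AA_per hg q hq x
  simpa using (h.int_mul n) x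

/-- a periodic continuous function is bounded -/
lemma bdd {g : ℝ → ℝ} (hc : Continuous g) (hg : ∀ x, g (x + 1) = g x) :
    ∃ M : ℝ, 0 ≤ M ∧ ∀ x, |g x| ≤ M := by
  obtain ⟨M, hM⟩ := isCompact_Icc.exists_bound_of_continuousOn (s := Set.Icc (0 : ℝ) 1)
    hc.continuousOn
  have hM0 : 0 ≤ M := (norm_nonneg _).trans (hM 0 ⟨le_rfl, zero_le_one⟩)
  refine ⟨M, hM0, fun x => ?_⟩
  have h : Function.Periodic g 1 := hg
  have h1 : g (Int.fract x) = g x := by
    have := (h.int_mul (-⌊x⌋)) x
    rw [← this]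
    congr 1
    rw [Int.fract]
    push_cast
    ring
  rw [← h1]
  exact hM _ ⟨Int.fract_nonneg x, (Int.fract_lt_one x).le⟩

lemma step {g : ℝ → ℝ} (hs : ContDiff ℝ (⊤ : ℕ∞) g) (hg : ∀ x, g (x + 1) = g x)
    (hi : (∫ x in (0:ℝ)..1, g x) = 0) (q : ℕ) (hq : 1 ≤ q) (D : ℝ)
    (hD : ∀ x, |AA q (deriv g) x| ≤ D) (x : ℝ) : |AA q g x| ≤ 1 / q * D := by
  have hq0 : (0 : ℝ) < q := by exact_mod_cast hq
  have hgd : ∀ x, HasDerivAt g (deriv g x) x := fun x =>
    (hs.differentiable (by simp)).differentiableAt.hasDerivAt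
  have hAd : ∀ x, HasDerivAt (AA q g) (AA q (deriv g) x) x := by
    intro x
    unfold AA
    refine HasDerivAt.fun_sum fun j _ => ?_
    simpa using (hgd (x + j / q)).comp_add_const x (j / q)
  have hAc : Continuous (AA q g) := by
    rw [continuous_iff_continuousAt]
    exact fun x => (hAd x).continuousAt
  have hgc : Continuous g := hs.continuous
  -- the integral vanishes
  have hper : Function.Periodic g 1 := hg
  have hint : (∫ x in (0:ℝ)..1, AA q g x) = 0 := by
    unfold AA
    have e : (∫ x in (0:ℝ)..1, ∑ j ∈ Finset.range q, g (x + j / q)) =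
        ∑ j ∈ Finset.range q, ∫ x in (0:ℝ)..1, g (x + j / q) :=
      intervalIntegral.integral_finsetSum fun j _ =>
        Continuous.intervalIntegrable (hgc.comp (by fun_prop)) _ _
    rw [e]
    refine Finset.sum_eq_zero fun j _ => ?_
    rw [intervalIntegral.integral_comp_add_right]
    have := hper.intervalIntegral_add_eq (0 + (j : ℝ) / q) 0
    rw [zero_add, zero_add] at this
    rw [zero_add, add_comm (1 : ℝ), this, hi]
  obtain ⟨c, hc, hc0⟩ : ∃ c ∈ Set.Ioo (0 : ℝ) 1, AA q g c = 0 := by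
    refine exists_hasDerivAt_eq_zero (f := fun u => ∫ x in (0:ℝ)..u, AA q g x) zero_lt_one ?_ ?_ ?_
    · exact (intervalIntegral.continuous_primitive
        (fun a b => hAc.intervalIntegrable a b) 0).continuousOn
    · simp [hint]
    · intro u _
      exact intervalIntegral.integral_hasDerivAt_right (hAc.intervalIntegrable _ _)
        hAc.stronglyMeasurable.stronglyMeasurableAtFilter hAc.continuousAt
  -- a zero close to `x`
  obtain ⟨n, hn⟩ : ∃ n : ℤ, n = ⌊(x - c) * q⌋ := ⟨_, rfl⟩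
  have h1 : (n : ℝ) ≤ (x - c) * q := by rw [hn]; exact Int.floor_le _
  have h2 : (x - c) * q < n + 1 := by rw [hn]; exact Int.lt_floor_add_one _
  obtain ⟨z, hz⟩ : ∃ z : ℝ, z = c + n * (1 / q) := ⟨_, rfl⟩
  have hz0 : AA q g z = 0 := by rw [hz, AA_per_int hg q hq, hc0]
  have hz1 : z ≤ x := by
    have : (n : ℝ) * (1 / q) ≤ x - c := by
      rw [mul_one_div, div_le_iff₀ hq0]
      exact h1
    linarith
  have hz2 : x - z ≤ 1 / q := by
    have : x - c ≤ ((n : ℝ) + 1) * (1 / q) := by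
      rw [mul_one_div, le_div_iff₀ hq0]
      exact h2.le
    rw [hz]
    linarith
  have hD0 : 0 ≤ D := (abs_nonneg _).trans (hD x)
  rcases hz1.eq_or_lt with h | h
  · rw [← h, hz0, abs_zero]
    positivity
  · obtain ⟨y, -, hy⟩ := exists_hasDerivAt_eq_slope (AA q g) (AA q (deriv g)) h
      hAc.continuousOn (fun u _ => hAd u)
    have e : AA q g x = AA q (deriv g) y * (x - z) := by
      rw [hy, hz0]
      have : x - z ≠ 0 := by linarith
      field_simp
      ring
    rw [e, abs_mul, abs_of_pos (by linarith : 0 < x - z)]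
    calc |AA q (deriv g) y| * (x - z) ≤ D * (1 / q) :=
          mul_le_mul (hD y) hz2 (by linarith) hD0
      _ = 1 / q * D := mul_comm _ _

lemma main (N : ℕ) : ∀ g : ℝ → ℝ, ContDiff ℝ (⊤ : ℕ∞) g → (∀ x, g (x + 1) = g x) →
    (∫ x in (0:ℝ)..1, g x) = 0 → ∃ C : ℝ, ∀ q : ℕ, 1 ≤ q → ∀ x, |AA q g x| ≤ C * q / q ^ N := by
  induction N with
  | zero =>
    intro g hs hg _
    obtain ⟨M, hM0, hM⟩ := bdd hs.continuous hg
    refine ⟨M, fun q _ x => ?_⟩
    unfold AA
    calc |∑ j ∈ Finset.range q, g (x + j / q)| ≤ ∑ j ∈ Finset.range q, |g (x + j / q)| :=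
          Finset.abs_sum_le_sum_abs _ _
      _ ≤ ∑ j ∈ Finset.range q, M := Finset.sum_le_sum fun j _ => hM _
      _ = M * q / q ^ 0 := by
        rw [Finset.sum_const, Finset.card_range, nsmul_eq_mul, pow_zero, div_one, mul_comm]
  | succ N ih =>
    intro g hs hg hi
    have hs' : ContDiff ℝ (⊤ : ℕ∞) (deriv g) := (contDiff_infty_iff_deriv.1 hs).2
    have hg' : ∀ x, deriv g (x + 1) = deriv g x := by
      intro x
      have e : (fun y => g (y + 1)) = g := funext hg
      have := deriv_comp_add_const g 1 x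
      rw [e] at this
      exact this.symm
    have hgd : ∀ x, HasDerivAt g (deriv g x) x := fun x =>
      (hs.differentiable (by simp)).differentiableAt.hasDerivAt
    have hi' : (∫ x in (0:ℝ)..1, deriv g x) = 0 := by
      rw [intervalIntegral.integral_eq_sub_of_hasDerivAt (fun x _ => hgd x)
        (hs'.continuous.intervalIntegrable _ _)]
      have := hg 0
      rw [zero_add] at this
      rw [this, sub_self]
    obtain ⟨C, hC⟩ := ih (deriv g) hs' hg' hi'
    refine ⟨C, fun q hq x => ?_⟩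
    have hq0 : (0 : ℝ) < q := by exact_mod_cast hq
    have := step hs hg hi q hq _ (hC q hq) x
    refine this.trans (le_of_eq ?_)
    rw [pow_succ]
    field_simp

theorem eq : S_Eq := by
  intro g hs hg hi N
  obtain ⟨C, hC⟩ := main (N + 1) g hs hg hi
  refine ⟨C, fun q P hq hP x => ?_⟩
  have hq0 : (0 : ℝ) < q := by exact_mod_cast hq
  rw [perm hg q P hq hP x]
  refine (hC q hq x).trans (le_of_eq ?_)
  rw [pow_succ]
  field_simp

end Q182.LV
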