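import Pool.Agent.Q289.LV.Stm

/-! Project LV (helper289), job SPLIT (helper182). -/

set_option autoImplicit false

open Filter Topology

namespace Q182.LV

open Q289.LV

theorem split (h : S_Hit) : S_Split := by
  intro w hw T hT hs1 hs2
  have hT1 : (1 : ℝ) ≤ T := by exact_mod_cast hT
  have hT0 : (0 : ℝ) < T := by linarith
  obtain ⟨δ, hδ⟩ : ∃ δ : ℝ, δ = (T : ℝ) ^ (-0.02 : ℝ) := ⟨_, rfl⟩
  have δ0 : 0 < δ := by rw [hδ]; exact Real.rpow_pos_of_pos hT0 _
  have δ1 : δ ≤ 1 := by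
    rw [hδ]
    exact Real.rpow_le_one_of_one_le_of_nonpos hT1 (by norm_num)
  -- the least point
  have hb1 : ∀ m : ℤ, δ ≤ Ex w T (leI m) 0 → -(T : ℤ) ≤ m := by
    intro m hm
    by_contra hcon
    push Not at hcon
    have h1 := h.h14 w hw (leI m) (fun _ => 0) T 0 (by
      intro b hb _
      unfold leI
      rw [if_neg (by omega)])
    rw [h.h16 w 0 T 0] at h1
    linarith
  have hb2 : ∀ m : ℤ, δ ≤ Ex w T (geI m) 0 → m ≤ T := by
    intro m hm
    by_contra hcon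
    push Not at hcon
    have := h.h12 w m T 0 (by simpa using hcon)
    rw [this] at hm
    linarith
  have hi1 : δ ≤ Ex w T (leI T) 0 := by
    have h1 := h.h14 w hw (fun _ => 1) (leI T) T 0 (by
      intro b _ hb
      unfold leI
      rw [if_pos (by omega)])
    rw [h.h16 w 1 T 0] at h1
    linarith
  have hi2 : δ ≤ Ex w T (geI (-(T : ℤ))) 0 := by
    have h1 := h.h14 w hw (fun _ => 1) (geI (-(T : ℤ))) T 0 (by
      intro b hb _
      unfold geI
      rw [if_pos (by omega)])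
    rw [h.h16 w 1 T 0] at h1
    linarith
  obtain ⟨m₁, hm1, hm1'⟩ := Int.exists_least_of_bdd (P := fun m => δ ≤ Ex w T (leI m) 0)
    ⟨-(T : ℤ), hb1⟩ ⟨T, hi1⟩
  obtain ⟨m₂, hm2, hm2'⟩ := Int.exists_greatest_of_bdd (P := fun m => δ ≤ Ex w T (geI m) 0)
    ⟨T, hb2⟩ ⟨-(T : ℤ), hi2⟩
  have hm1T : m₁ ≤ T := hm1' T hi1
  have hm1T' := hb1 m₁ hm1
  have hgap : (m₂ : ℝ) - m₁ < (T : ℝ) ^ (0.99 : ℝ) := by
    by_contra hcon
    push Not at hcon
    rcases le_or_gt ((1 / 2) * (T : ℝ) ^ (0.99 : ℝ)) m₂ with h1 | h1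
    · exact hs1 ⟨m₁, m₂, h1, hcon, by rw [← hδ]; exact hm1, by rw [← hδ]; exact hm2⟩
    · apply hs2
      refine ⟨-m₂, -m₁, ?_, ?_, ?_, ?_⟩
      · push_cast
        linarith
      · push_cast
        linarith
      · rw [← hδ, h.h18, neg_zero]
        have e : (fun b : ℤ => leI (-m₂) (-b)) = geI m₂ := by
          funext b
          unfold leI geI
          simp
        rw [e]
        exact hm2
      · rw [← hδ, h.h18, neg_zero]
        have e : (fun b : ℤ => geI (-m₁) (-b)) = leI m₁ := by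
          funext b
          unfold leI geI
          simp
        rw [e]
        exact hm1
  have hl : Ex w T (leI (m₁ - 1)) 0 < δ := by
    by_contra hcon
    push Not at hcon
    have := hm1' (m₁ - 1) hcon
    omega
  have hg : Ex w T (geI (m₂ + 1)) 0 < δ := by
    by_contra hcon
    push Not at hcon
    have := hm2' (m₂ + 1) hcon
    omega
  have e198 : ((T : ℝ) ^ (0.99 : ℝ)) ^ 2 = (T : ℝ) ^ (1.98 : ℝ) := by
    rw [← Real.rpow_natCast, ← Real.rpow_mul hT0.le]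
    norm_num
  refine ⟨m₁, ?_⟩
  have h1 := h.h14 w hw (fun k : ℤ => ((k : ℝ) - m₁) ^ 2)
    (fun k => (fun k => (T : ℝ) ^ (1.98 : ℝ) + (4 * (T : ℝ) ^ 2) * leI (m₁ - 1) k) k +
      (4 * (T : ℝ) ^ 2) * geI (m₂ + 1) k) T 0 (by
    intro k hk1 hk2
    have hk1' : -(T : ℝ) ≤ k := by
      have : -(T : ℤ) ≤ k := by omega
      exact_mod_cast this
    have hk2' : (k : ℝ) ≤ T := by
      have : k ≤ (T : ℤ) := by omega
      exact_mod_cast this
    have hm1a : -(T : ℝ) ≤ m₁ := by exact_mod_cast hm1T'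
    have hm1b : (m₁ : ℝ) ≤ T := by exact_mod_cast hm1T
    have hbig : ((k : ℝ) - m₁) ^ 2 ≤ 4 * (T : ℝ) ^ 2 := by
      have h2 : |(k : ℝ) - m₁| ≤ 2 * T := by
        rw [abs_le]
        constructor <;> linarith
      have h3 := pow_le_pow_left₀ (abs_nonneg _) h2 2
      rw [sq_abs] at h3
      linarith
    have p0 : 0 ≤ (T : ℝ) ^ (1.98 : ℝ) := Real.rpow_nonneg hT0.le _
    have hT2 : 0 ≤ 4 * (T : ℝ) ^ 2 := by positivity
    show ((k : ℝ) - m₁) ^ 2 ≤ (T : ℝ) ^ (1.98 : ℝ) + (4 * (T : ℝ) ^ 2) * leI (m₁ - 1) k +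
      (4 * (T : ℝ) ^ 2) * geI (m₂ + 1) k
    unfold leI geI
    rcases le_or_gt k (m₁ - 1) with h2 | h2
    · rw [if_pos h2]
      have h3 : (0 : ℝ) ≤ (if m₂ + 1 ≤ k then 1 else 0) := by split_ifs <;> norm_num
      have h4 := mul_nonneg hT2 h3
      linarith
    · rw [if_neg (not_le.2 h2)]
      rcases le_or_gt (m₂ + 1) k with h3 | h3
      · rw [if_pos h3]
        linarith
      · rw [if_neg (not_le.2 h3)]
        have h4 : (0 : ℝ) ≤ (k : ℝ) - m₁ := by
          have : m₁ ≤ k := by omega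
          have : (m₁ : ℝ) ≤ k := by exact_mod_cast this
          linarith
        have h5 : (k : ℝ) - m₁ ≤ (T : ℝ) ^ (0.99 : ℝ) := by
          have : k ≤ m₂ := by omega
          have : (k : ℝ) ≤ m₂ := by exact_mod_cast this
          linarith
        have h6 := pow_le_pow_left₀ h4 h5 2
        rw [e198] at h6
        linarith)
  rw [h.h15 w _ _ _ T 0, h.h15 w (fun _ => (T : ℝ) ^ (1.98 : ℝ)) _ _ T 0, h.h16] at h1
  have e2 : (T : ℝ) ^ 2 * δ = (T : ℝ) ^ (1.98 : ℝ) := by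
    rw [hδ, ← Real.rpow_natCast, ← Real.rpow_add hT0]
    norm_num
  have hT2 : 0 < (T : ℝ) ^ 2 := by positivity
  have h2 := mul_le_mul_of_nonneg_left hl.le hT2.le
  have h3 := mul_le_mul_of_nonneg_left hg.le hT2.le
  rw [e2] at h2 h3
  linarith

end Q182.LV
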